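import Pool.Agent.H306.HG.Main

/-! Finite-time blow-up of smooth solutions of the three-dimensional incompressible Euler equations
on the torus with a linear skew-adjoint term, `∂_t u + (u · ∇) u + ∇ p = K u`, `div u = 0`: the
operators `K` with blow-up are dense near every skew-adjoint linear operator `L`, in the topology of
the operators of order `-σ`, `σ < 1 / 4` (with `L = 0` and `σ > 0`: an arbitrarily small compact
`K`). -/

namespace Pool.Agent.Results.MP_b0497c_an.CompactSkew

open Set Pool.Agent.H306.CK Pool.Agent.H306.DS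

open scoped ContDiff

theorem result (σ σ' δ : ℝ) (hσ : σ < 1 / 4) (hσ' : σ < σ') (hδ : 0 < δ)
    -- a given linear operator `L` on smooth periodic divergence-free fields
    (L : (V → V) → V → V) (hL : ∀ v, SF v → SF (L v))
    (hL1 : ∀ v w, SF v → SF w → ∀ a b : ℝ,
      L (fun x i => a * v x i + b * w x i) = fun x i => a * L v x i + b * L w x i)
    -- zero on constant fields
    (hL2 : ∀ c : V, L (fun _ => c) = fun _ _ => 0)
    -- of order `-σ'`
    (hL3 : ∀ S : ℝ, ∃ C : ℝ, ∀ s : ℝ, |s| ≤ S → ∀ v, SF v →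
      hs (s + σ') (L v) ≤ ENNReal.ofReal C * hs s v)
    -- and skew-adjoint (for example `L = 0`)
    (hL4 : ∀ v w, SF v → SF w → inner3 (L v) w = -inner3 v (L w)) :
    ∃ K : (V → V) → V → V,
      -- `K` is a linear operator on smooth periodic divergence-free fields
      (∀ v, SF v → SF (K v)) ∧
      (∀ v w, SF v → SF w → ∀ a b : ℝ,
        K (fun x i => a * v x i + b * w x i) = fun x i => a * K v x i + b * K w x i) ∧
      -- skew-adjoint
      (∀ v w, SF v → SF w → inner3 (K v) w = -inner3 v (K w)) ∧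
      -- `K - L` is smoothing of order `σ` (compact if `σ > 0`) and small
      (∀ s : ℝ, ∃ C : ℝ, ∀ v, SF v →
        hs (s + σ) (fun x i => K v x i - L v x i) ≤ ENNReal.ofReal C * hs s v) ∧
      (∀ s : ℝ, |s| ≤ 1 / δ → ∀ v, SF v →
        hs (s + σ) (fun x i => K v x i - L v x i) ≤ ENNReal.ofReal δ * hs s v) ∧
      -- all classical solutions conserve the energy
      (∀ (T : ℝ) (u : ℝ → V → V) (p : ℝ → V → ℝ), IsSol K (Ico 0 T) u p →
        (∀ t ∈ Ico 0 T, SF (u t)) → ∀ t ∈ Ico 0 T, inner3 (u t) (u t) = inner3 (u 0) (u 0)) ∧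
      -- there is a small smooth solution whose vorticity blows up after a short time
      ∃ (T : ℝ) (u : ℝ → V → V), 0 < T ∧ T ≤ δ ∧
        ContDiffOn ℝ ∞ (fun z : ℝ × V => u z.1 z.2) (Ico 0 T ×ˢ univ) ∧
        IsSol K (Ico 0 T) u (fun _ _ => 0) ∧
        (∀ t ∈ Ico 0 T, SF (u t)) ∧
        (∀ t ∈ Ico 0 T, ∀ x i, |u t x i| ≤ δ) ∧
        (∀ M : ℝ, ∃ t ∈ Ico 0 T, ∃ x, M < ‖curl (u t) x‖) ∧
        -- no classical solution with the same initial field exists longer
        (∀ (T' : ℝ) (v : ℝ → V → V) (q : ℝ → V → ℝ), IsSol K (Ico 0 T') v q →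
          (∀ t ∈ Ico 0 T', SF (v t)) → v 0 = u 0 → T' ≤ T ∧ ∀ t ∈ Ico 0 T', v t = u t) ∧
        -- but the Euler equations have a global smooth solution with the same initial field
        ∃ w : ℝ → V → V, w 0 = u 0 ∧
          ContDiffOn ℝ ∞ (fun z : ℝ × V => w z.1 z.2) (Ici 0 ×ˢ univ) ∧
          IsSol (fun _ _ => 0) (Ici 0) w (fun _ _ => 0) :=
  Pool.Agent.H306.HG.main σ σ' δ hσ hσ' hδ L hL hL1 hL2 hL3 hL4

end Pool.Agent.Results.MP_b0497c_an.CompactSkew
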