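import Pool.Agent.H226.DE.ResE

/-!
# The Euler equations with a generic constant-coefficient dispersion have global smooth solutions

For every odd `n ≥ 13` and almost every (Lebesgue) family `α_σ` of real coefficients, one for each
multi-index `σ = (σ₁, …, σ_n)` of coordinates, the three-dimensional periodic Euler equations with
the additional skew-adjoint term `∑_σ α_σ ∂_{σ₁} ⋯ ∂_{σ_n} u`,

  `∂ₜ u + (u · ∇) u + ∇ p = ν Δ u + ∑_σ α_σ ∂_{σ₁} ⋯ ∂_{σ_n} u`,  `div u = 0`,

have for all smooth periodic divergence-free initial velocities `u₀`, of any size and any mean, and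
all `ν ≥ 0`, in particular for the inviscid equations `ν = 0`, a smooth solution for all times, and
it is unique. The exceptional null set does not depend on `u₀` and `ν`.

Idea of the proof. Let `φ(k) = ± (2π)^n ∑_σ α_σ k_{σ₁} ⋯ k_{σ_n}` be the frequency of the mode `k`.
Every triad `k = p + q` of nonzero frequencies has a coefficient
`k_{σ₁} ⋯ k_{σ_n} - p_{σ₁} ⋯ p_{σ_n} - q_{σ₁} ⋯ q_{σ_n}` of size at least `c max(|k|,|p|,|q|)^(n-1)`
(`s_triad`), so by the Borel-Cantelli lemma the detuning `φ(k) - φ(p) - φ(q)` is at least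
`max(|k|,|p|,|q|)^5` for all but finitely many triads, for almost every `α` (`ae_nres`). A normal
form (division by the detuning) changes the Sobolev norm `∑ |k|^(2s) |û(k)|²` by a small amount
(`corr_le`), and the remaining quartic terms are at most a constant, depending only on the energy,
times this norm (`quart`). With Gronwall's lemma all Sobolev norms of the Galerkin approximations
stay bounded on each bounded interval of time (`aprE_one`).
-/

open MeasureTheory Set Filter Topology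
open scoped ContDiff

namespace Pool.Agent.Results.MP_b0497c_an.GenericDispersion

/-- The space `ℝ³`. -/
abbrev V := Fin 3 → ℝ

/-- `f` is `1`-periodic in each of the three coordinates. -/
def Periodic {F : Type*} (f : V → F) : Prop :=
  ∀ (j : Fin 3) (x : V), f (x + Pi.single j 1) = f x

/-- The partial derivative `∂_{σ₁} ⋯ ∂_{σ_n} f`. -/
noncomputable def partialD {n : ℕ} (σ : Fin n → Fin 3) (f : V → ℝ) (x : V) : ℝ :=
  iteratedFDeriv ℝ n f x fun l => Pi.single (σ l) 1

/-- `(u, p)` is a smooth `1`-periodic solution, for the times in `I`, of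
`∂ₜ uᵢ + ∑_j u_j ∂_j uᵢ = ν ∑_j ∂_j² uᵢ + ∑_σ α_σ ∂_{σ₁} ⋯ ∂_{σ_n} uᵢ - ∂ᵢ p`, `div u = 0`: `u` and
`p` are `C^∞` on `I × ℝ³` and `1`-periodic in each coordinate of `x`. For `ν = 0` and `α = 0` these
are the Euler equations. -/
structure IsSol {n : ℕ} (ν : ℝ) (α : (Fin n → Fin 3) → ℝ) (I : Set ℝ) (u : ℝ → V → V)
    (p : ℝ → V → ℝ) : Prop where
  smooth_u : ContDiffOn ℝ ∞ (fun z : ℝ × V => u z.1 z.2) (I ×ˢ univ)
  smooth_p : ContDiffOn ℝ ∞ (fun z : ℝ × V => p z.1 z.2) (I ×ˢ univ)
  per_u : ∀ t ∈ I, Periodic (u t)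
  per_p : ∀ t ∈ I, Periodic (p t)
  divfree : ∀ t ∈ I, ∀ x, ∑ j, partialD ![j] (fun y => u t y j) x = 0
  momentum : ∀ t ∈ I, 0 < t → ∀ x i,
    deriv (fun s => u s x i) t + ∑ j, u t x j * partialD ![j] (fun y => u t y i) x
      = ν * ∑ j, partialD ![j, j] (fun y => u t y i) x
        + ∑ σ, α σ * partialD σ (fun y => u t y i) x - partialD ![i] (p t) x

/-! ### The definitions above and those of the files with the proofs -/

open H459R3.NS Pool.Agent.H226.DE

lemma slice {I : Set ℝ} {f : ℝ → V → ℝ}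
    (hf : ContDiffOn ℝ ∞ (fun z : ℝ × V => f z.1 z.2) (I ×ˢ univ)) {t : ℝ} (ht : t ∈ I) :
    ContDiff ℝ ∞ (f t) := by
  rw [← contDiffOn_univ]
  exact hf.comp (contDiff_const.prodMk contDiff_id).contDiffOn (fun x _ => ⟨ht, mem_univ _⟩)

lemma partialD_eq {n : ℕ} (σ : Fin n → Fin 3) (f : V → ℝ) (x : V) :
    partialD σ f x = itd σ f x := rfl

lemma partialD_one {f : V → ℝ} (hf : ContDiff ℝ ∞ f) (j : Fin 3) (x : V) :
    partialD ![j] f x = pd j f x := by
  rw [partialD_eq, itd_succ hf, itd_zero]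
  rfl

lemma partialD_two {f : V → ℝ} (hf : ContDiff ℝ ∞ f) (j : Fin 3) (x : V) :
    partialD ![j, j] f x = pd j (pd j f) x := by
  rw [partialD_eq, itd_succ hf, itd_succ hf, itd_zero]
  rfl

lemma toL {n : ℕ} {ν : ℝ} {α : (Fin n → Fin 3) → ℝ} {I : Set ℝ} {u : ℝ → V → V}
    {p : ℝ → V → ℝ} : IsSol ν α I u p ↔ IsSolL (opL ν α id) I u p := by
  constructor
  · intro h
    have hc : ∀ t ∈ I, ∀ i, ContDiff ℝ ∞ fun y => u t y i := fun t ht i =>
      (contDiff_pi.1 (by
        rw [← contDiffOn_univ]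
        exact h.smooth_u.comp (contDiff_const.prodMk contDiff_id).contDiffOn
          (fun x _ => ⟨ht, mem_univ _⟩) : ContDiff ℝ ∞ (u t))) i
    refine ⟨h.smooth_u, h.smooth_p, h.per_u, h.per_p, fun t ht x => ?_, fun t ht ht0 x i => ?_⟩
    · rw [← h.divfree t ht x]
      exact Finset.sum_congr rfl fun j _ => (partialD_one (hc t ht j) j x).symm
    · have h1 := h.momentum t ht ht0 x i
      simp only [partialD_one (hc t ht i), partialD_two (hc t ht i),
        partialD_one (slice h.smooth_p ht)] at h1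
      exact h1
  · intro h
    have hc : ∀ t ∈ I, ∀ i, ContDiff ℝ ∞ fun y => u t y i := fun t ht i =>
      (contDiff_pi.1 (by
        rw [← contDiffOn_univ]
        exact h.smooth_u.comp (contDiff_const.prodMk contDiff_id).contDiffOn
          (fun x _ => ⟨ht, mem_univ _⟩) : ContDiff ℝ ∞ (u t))) i
    refine ⟨h.smooth_u, h.smooth_p, h.per_u, h.per_p, fun t ht x => ?_, fun t ht ht0 x i => ?_⟩
    · rw [← h.divfree t ht x]
      exact Finset.sum_congr rfl fun j _ => partialD_one (hc t ht j) j x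
    · have h1 := h.momentum t ht ht0 x i
      simp only [partialD_one (hc t ht i), partialD_two (hc t ht i),
        partialD_one (slice h.smooth_p ht)]
      exact h1

/-- **Global regularity of the Euler equations with generic dispersion** of any odd order
`n ≥ 13`: for almost every `α`, for all `ν ≥ 0` (in particular `ν = 0`) and all smooth data. -/
theorem result {n : ℕ} (hn : Odd n) (h13 : 13 ≤ n) : ∀ᵐ α : (Fin n → Fin 3) → ℝ,
    ∀ ν : ℝ, 0 ≤ ν → ∀ u₀ : V → V, ContDiff ℝ ∞ u₀ → Periodic u₀ →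
      (∀ x, ∑ j, partialD ![j] (fun y => u₀ y j) x = 0) →
      ∃ (u : ℝ → V → V) (p : ℝ → V → ℝ), IsSol ν α (Ici 0) u p ∧ u 0 = u₀ ∧
        ∀ (T : ℝ) (u' : ℝ → V → V) (p' : ℝ → V → ℝ), IsSol ν α (Ico 0 T) u' p' → u' 0 = u₀ →
          ∀ t ∈ Ico 0 T, u' t = u t := by
  filter_upwards [ae_nres hn h13] with α hα ν hν u₀ hs hper hdiv
  obtain ⟨R, hR⟩ := hα
  have hL := symb_opL hn hν α id
  have hP := polC_syL hν α id
  have hc₀ : ∀ i, ContDiff ℝ ∞ fun y => u₀ y i := contDiff_pi.1 hs
  obtain ⟨u, p, hu, hu0⟩ := existsE hL hP (by omega) one_pos (hR ν) hs hper (fun x => by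
    rw [← hdiv x]
    exact Finset.sum_congr rfl fun j _ => (partialD_one (hc₀ j) j x).symm)
  refine ⟨u, p, toL.2 hu, hu0, fun T u' p' h' h0' t ht => ?_⟩
  exact uniqL hL hP (by omega) (toL.1 h') (hu.mono fun s hs => hs.1) (h0'.trans hu0.symm) t ht

end Pool.Agent.Results.MP_b0497c_an.GenericDispersion
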