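import Pool.Agent.H306.DF.Fin

/-! The inviscid dyadic (Katz–Pavlović) model of the Euler equations with a constant force `f ≥ 0`
in the first mode, `kₙ = b^(3n)`, with the Euler scaling for `b = λ^(5/6)`, for `b³ ≥ 113/20`, so
for all `λ ≥ 2`: existence and uniqueness for all nonnegative data of finite energy, instantaneous
and lossless smoothing of every such solution into the space of exactly Onsager's exponent
(`sup bⁿ Xₙ`), at all positive times and with the rate `t^(-1/3)`, propagation of this norm; without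
force also universal bounds `sup bⁿ Xₙ ≤ K / t` and `E ≤ K / t²` which do not depend on the datum,
and sharpness of the exponent for every nonzero solution after every time. -/

set_option maxHeartbeats 4000000

namespace Pool.Agent.Results.MP_b0497c_an.OnsagerDyadic

open Set Filter Topology

/-- `X` solves on `[0, ∞)` the inviscid dyadic model
`X₀' = f - X₀ X₁`, `Xₙ' = b^(3(n-1)) Xₙ₋₁² - b^(3n) Xₙ Xₙ₊₁` for `n = 1, 2, …`. -/
def Solves (b f : ℝ) (X : ℕ → ℝ → ℝ) : Prop :=
  ∀ n : ℕ, ∀ t : ℝ, 0 ≤ t → HasDerivWithinAt (X n)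
    ((if n = 0 then f else b ^ (3 * (n - 1)) * X (n - 1) t ^ 2)
      - b ^ (3 * n) * X n t * X (n + 1) t) (Set.Ici 0) t

/-- the energy `Σ Xₙ(t)²` -/
noncomputable def energy (X : ℕ → ℝ → ℝ) (t : ℝ) : ℝ := ∑' n, X n t ^ 2

open Pool.Agent.H219.Dy Pool.Agent.H219.Dz Pool.Agent.H306.DF in
theorem solves_iff {b f : ℝ} {X : ℕ → ℝ → ℝ} : Solves b f X ↔ IsF b f X := by
  have e : ∀ (n : ℕ) (t : ℝ), (if n = 0 then f else b ^ (3 * (n - 1)) * X (n - 1) t ^ 2)
      - b ^ (3 * n) * X n t * X (n + 1) t = FE b (fun k => X k t) n + fo f n := by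
    intro n t
    unfold FE fo
    split_ifs
    · ring
    · ring
  unfold Solves IsF
  simp only [e]

open Pool.Agent.H219.Dy Pool.Agent.H219.Dz Pool.Agent.H306.DF in
theorem result (b : ℝ) (hb : 0 < b) (h5 : 113 / 20 ≤ b ^ 3) :
    ∃ K : ℝ, 0 < K ∧ ∀ f : ℝ, 0 ≤ f →
      -- existence for every nonnegative datum of finite energy
      (∀ a : ℕ → ℝ, (∀ n, 0 ≤ a n) → Summable (fun n => a n ^ 2) →
        ∃ X : ℕ → ℝ → ℝ, Solves b f X ∧ ∀ n, X n 0 = a n) ∧
      -- every solution with nonnegative data of finite energy has the following properties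
      ∀ X : ℕ → ℝ → ℝ, Solves b f X → (∀ n, 0 ≤ X n 0) → Summable (fun n => X n 0 ^ 2) →
        -- it is the only solution with these data
        (∀ Y : ℕ → ℝ → ℝ, Solves b f Y → (∀ n, Y n 0 = X n 0) → ∀ n t, 0 ≤ t → Y n t = X n t) ∧
        (∀ n t, 0 ≤ t → 0 ≤ X n t) ∧
        -- the energy is finite and its square root grows at most with the rate of the force
        (∀ t, 0 ≤ t → Summable (fun n => X n t ^ 2)) ∧
        (∀ s t : ℝ, 0 ≤ s → s ≤ t →
          Real.sqrt (energy X t) ≤ Real.sqrt (energy X s) + f * (t - s)) ∧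
        -- lossless smoothing into the Onsager space, with the rate of order 1/3
        (∀ s t : ℝ, 0 ≤ s → s < t → ∀ n : ℕ,
          (b ^ n * X n t) ^ 3 ≤ K * ((Real.sqrt (energy X s) + f * (t - s)) ^ 2
            * (Real.sqrt (energy X s) + f * (t - s) + 1 / (t - s)))) ∧
        -- propagation of the Onsager norm
        (∀ s A : ℝ, 0 ≤ s → (∀ n : ℕ, b ^ n * X n s ≤ A) →
          ∀ (n : ℕ) (t : ℝ), s ≤ t → b ^ n * X n t ≤ K * (A + f * (t - s))) ∧
        -- without force: the energy is nonincreasing, universal bounds, and the exponent is sharp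
        -- for every nonzero solution, after every time
        (f = 0 → AntitoneOn (energy X) (Set.Ici 0) ∧
          (∀ t : ℝ, 0 < t → energy X t ≤ K / t ^ 2 ∧ ∀ n : ℕ, b ^ n * X n t ≤ K / t) ∧
          ((∃ n, X n 0 ≠ 0) → ∀ t₀ : ℝ, 0 ≤ t₀ → ∃ T : ℝ, t₀ < T ∧ ∀ c : ℝ, b < c → ∀ M : ℝ,
            ∃ n : ℕ, ∃ t ∈ Set.Icc t₀ T, M < c ^ n * X n t)) := by
  obtain ⟨K1, hK1, hmain⟩ := mainF c5 p6 p7 b hb h5
  obtain ⟨K2, hK2, _, hunf⟩ := Unf.result b hb h5
  refine ⟨K1 + K2, by positivity, fun f hf => ⟨?_, ?_⟩⟩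
  · intro a ha hs
    obtain ⟨X, hX, hX0⟩ := (hmain f hf).1 a ha hs
    exact ⟨X, solves_iff.2 hX, hX0⟩
  · intro X hX h0 hsum
    obtain ⟨c1, c2, c3, c4, c5, c6⟩ := (hmain f hf).2 X (solves_iff.1 hX) h0 hsum
    refine ⟨fun Y hY hY0 => c1 Y (solves_iff.1 hY) hY0, c2, c3, c4, ?_, ?_, ?_⟩
    · intro s t hs hst n
      refine (c5 s t hs hst n).trans ?_
      have hst' : 0 < t - s := by linarith
      have h1 : 0 ≤ (Real.sqrt (energy X s) + f * (t - s)) ^ 2
            * (Real.sqrt (energy X s) + f * (t - s) + 1 / (t - s)) := by positivity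
      exact mul_le_mul_of_nonneg_right (by linarith) h1
    · intro s A hs hA n t hst
      refine (c6 s A hs hA n t hst).trans ?_
      have hA0 : 0 ≤ A := le_trans (by have := c2 0 s hs; positivity) (hA 0)
      have hst' : 0 ≤ t - s := by linarith
      have h1 : 0 ≤ A + f * (t - s) := by positivity
      exact mul_le_mul_of_nonneg_right (by linarith) h1
    · intro hf0
      subst hf0
      have hX' : Unf.Solves b X := by
        intro n t ht
        exact hX n t ht
      obtain ⟨_, _, _, d4, d5, _, _, d8⟩ := hunf X hX' h0 hsum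
      refine ⟨d4, fun t ht => ⟨(d5 t ht).1.trans ?_, fun n => ((d5 t ht).2 n).trans ?_⟩, d8⟩
      · have : K2 ≤ K1 + K2 := by linarith
        gcongr
      · have : K2 ≤ K1 + K2 := by linarith
        gcongr

end Pool.Agent.Results.MP_b0497c_an.OnsagerDyadic
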