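import Pool.Agent.H226.GM.Main2
import Pool.Agent.H226.GM.Coef

/-!
# Finite-time blow-up for the Euler equations under sparse linear constraints, and for
Galerkin projections

For a closed subspace `H` of the divergence-free fields in `L²` of the torus, with orthogonal
projection `P`, consider the Galerkin projection `∂ₜ u + P (u · ∇ u) = 0`, `u = P u`, of the
three-dimensional periodic Euler equations: the exact nonlinearity, no force, and the energy is
conserved. If `H` is given by linear constraints `∫ u · ψ = 0`, these are the Euler equations with the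
reaction forces of the constraints, which do no work. For finite dimensional `H` the solutions are
global, and for `H` the space of all divergence-free fields of `L²` these are the Euler equations.

The theorem gives an orthonormal sequence `φ_m` and constraints `ψ_{n,i}`, `0 ≤ i ≤ n + 1`, which are
trigonometric polynomials, of degree at least `4^(n³)`: only `O((log R)^(2/3))` of the constraints have
a degree `≤ R`. Let `p ≥ 1`. For EVERY space `H` which is the closed span of smooth fields, which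
contains the fields `φ_m(p x)` and whose generating fields satisfy the constraints
`∫ w(x) · ψ_{n,i}(p x) dx = 0`, there is finite-time blow-up of smooth solutions in arbitrarily short
time `T*`, for a set of data which is dense in the norm of `H^s` for every `s < 5/2`; the norms of `H^r`, for
ALL `r > 0`, and of `L³` are unbounded at the blow-up time (only the energy is bounded), and
`∫_0^{T*} max |curl u| dt = ∞`, as in the criterion of Beale, Kato and Majda for the Euler equations. The solution is the same for all these spaces. One of them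
is given by the sparse constraints alone. Another one is the space `H_p` which contains the fields
`φ_m(p x)` and all divergence-free Fourier modes with frequencies outside `(pℤ)³` (density `1 - p⁻³`,
and all nonzero frequencies of size less than `p`); the projection onto `H_p` is bounded in all Sobolev
spaces. The exponent `5/2` is the critical one: for `s > 5/2` the time of existence of a solution of the
Euler equations is bounded below in terms of the norm of the data in `H^s`.

The library has blow-up theorems for Galerkin projections of the Euler equations onto the closed span of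
a lacunary sequence (data dense in `L²`), for Fourier-Galerkin truncations which omit `O((log N)²)` modes,
and for the Euler equations under tower-sparse constraints, each for special data. New here are the
density of the data up to the critical exponent together with the short time, the blow-up of the norms,
and the spaces.

The companion theorem for the Navier-Stokes equations, with the same spaces and all viscosities, has
the range `s < 1/2` (`MP_6bf1e5_an.GalerkinBlowup`); there is the idea of the proof. Without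
viscosity the cascade may begin at the level `m₀` with an amplitude not much larger than
`R_{m₀}^(-5) = N_{m₀}^(-5/2)`, which is small in `H^s` for `s < 5/2`; the time of the first stage is
about `R_{m₀}^(-5)` divided by the amplitude, and the strain of the given lower modes is bounded
(`s_low`, `blow2`, `noSol` with `e = 5`).
-/

open MeasureTheory Set Filter Topology
open scoped ContDiff ENNReal

namespace Pool.Agent.Results.MP_b0497c_an.ProjectedEulerBlowup

/-- The space `ℝ³`. -/
abbrev V := Fin 3 → ℝ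

/-- `f` is `1`-periodic in each of the three coordinates. -/
def Periodic {F : Type*} (f : V → F) : Prop :=
  ∀ (j : Fin 3) (x : V), f (x + Pi.single j 1) = f x

/-- The partial derivative `∂_j f`. -/
noncomputable def D (j : Fin 3) (f : V → ℝ) (x : V) : ℝ := fderiv ℝ f x (Pi.single j 1)

/-- The vorticity `curl v`. -/
noncomputable def curl (v : V → V) (x : V) : V :=
  ![D 1 (fun y => v y 2) x - D 2 (fun y => v y 1) x,
    D 2 (fun y => v y 0) x - D 0 (fun y => v y 2) x,
    D 0 (fun y => v y 1) x - D 1 (fun y => v y 0) x]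

/-- The inner product `∫ u · v` of `L²`, over the period cell `[0, 1]³`. -/
noncomputable def ip2 (u v : V → V) : ℝ := ∑ i, ∫ x in Icc (0 : V) 1, u x i * v x i

/-- The divergence-free Fourier modes `x ↦ cos (2π k·x) a` and `x ↦ sin (2π k·x) a`, `k · a = 0`,
of the frequency `k ∈ ℤ³`. -/
def Mode (k : Fin 3 → ℤ) : Set (V → V) :=
  {w | ∃ a : V, ∑ j, (k j : ℝ) * a j = 0 ∧
    (w = (fun x => Real.cos (2 * Real.pi * ∑ j, (k j : ℝ) * x j) • a) ∨
      w = fun x => Real.sin (2 * Real.pi * ∑ j, (k j : ℝ) * x j) • a)}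

/-- The fields `x ↦ φ m (p x)`, `m = 0, 1, 2, …`. -/
def Scaled (φ : ℕ → V → V) (p : ℕ) : Set (V → V) := {w | ∃ m, w = fun x => φ m ((p : ℝ) • x)}

/-- The fields `x ↦ φ m (p x)` and all divergence-free Fourier modes whose frequency is not in
`(pℤ)³`. -/
def Fam (φ : ℕ → V → V) (p : ℕ) : Set (V → V) :=
  Scaled φ p ∪ {w | ∃ k : Fin 3 → ℤ, (∃ j, ¬((p : ℤ) ∣ k j)) ∧ w ∈ Mode k}

/-- The sum over the components of `v` of `|∫ vᵢ(x) exp (-2πi k·x) dx|²`. -/
noncomputable def coeffSq (v : V → V) (k : Fin 3 → ℤ) : ℝ :=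
  ∑ i, ((∫ x in Icc (0 : V) 1, v x i * Real.cos (2 * Real.pi * ∑ j, (k j : ℝ) * x j)) ^ 2
    + (∫ x in Icc (0 : V) 1, v x i * Real.sin (2 * Real.pi * ∑ j, (k j : ℝ) * x j)) ^ 2)

/-- The square `∑_k (1 + |k|²)^s |v̂(k)|²` of the norm of the Sobolev space `H^s` (it may be
infinite). -/
noncomputable def sobSq (s : ℝ) (v : V → V) : ℝ≥0∞ :=
  ∑' k : Fin 3 → ℤ, ENNReal.ofReal ((1 + ∑ j, (k j : ℝ) ^ 2) ^ s * coeffSq v k)

/-- `v` is a smooth periodic divergence-free field. -/
structure SmoothDivFree (v : V → V) : Prop where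
  smooth : ContDiff ℝ ∞ v
  periodic : Periodic v
  divfree : ∀ x, ∑ j, D j (fun y => v y j) x = 0

/-- `v` is in the closed linear span of `Φ` in `L²`. -/
def InClosedSpan (Φ : Set (V → V)) (v : V → V) : Prop :=
  ∀ ε > 0, ∃ w ∈ Submodule.span ℝ Φ, ip2 (v - w) (v - w) < ε

/-- `u` is a smooth solution, for the times in `[0, T)`, of the Galerkin projection
`∂ₜ u + P (u · ∇ u) = 0`, `u = P u`, of the Euler equations onto the closed linear span of `Φ`. Here
`P` is the orthogonal projection of `L²` onto this space, in other words: `u(t)` is in the closed span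
of `Φ`, and the Euler equations hold when they are tested with the elements of `Φ`. -/
structure IsSol (Φ : Set (V → V)) (T : ℝ) (u : ℝ → V → V) : Prop where
  smooth : ContDiffOn ℝ ∞ (fun z : ℝ × V => u z.1 z.2) (Ico 0 T ×ˢ univ)
  periodic : ∀ t ∈ Ico 0 T, Periodic (u t)
  divfree : ∀ t ∈ Ico 0 T, ∀ x, ∑ j, D j (fun y => u t y j) x = 0
  mem : ∀ t ∈ Ico 0 T, InClosedSpan Φ (u t)
  eq : ∀ t ∈ Ioo 0 T, ∀ w ∈ Φ, ∑ i, ∫ x in Icc (0 : V) 1,
    (deriv (fun s => u s x i) t + ∑ j, u t x j * D j (fun y => u t y i) x) * w x i = 0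

/-- `Φ` is an admissible set of test fields: it consists of smooth periodic divergence-free fields
`w` which satisfy the linear constraints `∫ w(x) · ψ n i (p x) dx = 0`, and it contains the fields
`x ↦ φ m (p x)`. -/
structure Admissible (φ : ℕ → V → V) (ψ : ℕ → ℕ → V → V) (p : ℕ) (Φ : Set (V → V)) : Prop where
  smooth : ∀ w ∈ Φ, SmoothDivFree w
  scaled : Scaled φ p ⊆ Φ
  constraint : ∀ w ∈ Φ, ∀ n i, ip2 w (fun x => ψ n i ((p : ℝ) • x)) = 0

open Pool.Agent.H226.GB H459R3.NS

lemma span_iff (Φ : Set (V → V)) (v : V → V) : InClosedSpan Φ v ↔ InSpan Φ v := by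
  have e : ∀ w : V → V, ip2 (v - w) (v - w) = ∑ i, ∫ x in cube, (v x i - w x i) ^ 2 := by
    intro w
    unfold ip2
    refine Finset.sum_congr rfl fun i _ => ?_
    refine integral_congr_ae (Eventually.of_forall fun x => ?_)
    show (v x i - w x i) * (v x i - w x i) = (v x i - w x i) ^ 2
    ring
  unfold InClosedSpan InSpan
  simp only [e]

lemma sol_iff (Φ : Set (V → V)) (T : ℝ) (u : ℝ → V → V) : IsSol Φ T u ↔ IsPr Φ 0 T u := by
  constructor
  · intro h
    refine ⟨h.smooth, h.periodic, h.divfree, fun t ht => (span_iff Φ _).1 (h.mem t ht),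
      fun t ht w hw => ?_⟩
    simp only [zero_mul, sub_zero]
    exact h.eq t ht w hw
  · intro h
    refine ⟨h.smooth, h.per, h.divfree, fun t ht => (span_iff Φ _).2 (h.mem t ht),
      fun t ht w hw => ?_⟩
    have h1 := h.eq t ht w hw
    simp only [zero_mul, sub_zero] at h1
    exact h1

lemma scaled_eq (p : ℕ) : Scaled phi p = Sp1 p := by
  ext w
  constructor
  · rintro ⟨m, rfl⟩
    exact ⟨m, fun _ => rfl⟩
  · rintro ⟨m, h⟩
    exact ⟨m, funext h⟩

lemma fam_eq (p : ℕ) : Fam phi p = Fp phi p := by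
  ext w
  constructor
  · rintro (⟨m, rfl⟩ | ⟨k, hk, a, ha, h⟩)
    · exact Or.inl ⟨m, fun _ => rfl⟩
    · refine Or.inr ⟨k, a, hk, ha, ?_⟩
      rcases h with rfl | rfl
      · exact Or.inl fun _ => rfl
      · exact Or.inr fun _ => rfl
  · rintro (⟨m, h⟩ | ⟨k, a, hk, ha, h⟩)
    · exact Or.inl ⟨m, funext h⟩
    · refine Or.inr ⟨k, hk, a, ha, ?_⟩
      rcases h with h | h
      · exact Or.inl (funext h)
      · exact Or.inr (funext h)

lemma modes_mem (m : ℕ) : phi m ∈ Submodule.span ℝ {w | ∃ k : Fin 3 → ℤ, k ≠ 0 ∧ w ∈ Mode k} := by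
  refine Submodule.span_mono ?_ (s_modes m)
  rintro w ⟨k, a, ⟨j, hj⟩, ha, h⟩
  refine ⟨k, ?_, a, ha, ?_⟩
  · rintro rfl
    exact hj (by simp)
  · rcases h with h | h
    · exact Or.inl (funext h)
    · exact Or.inr (funext h)

lemma sob_eq (s : ℝ) (v : V → V) : sobSq s v = hs s v := rfl

lemma sp_of {v : V → V} (h : SmoothDivFree v) (i : Fin 3) : SP (fun x => v x i) :=
  ⟨contDiff_pi.1 h.smooth i, fun j x => congrFun (h.periodic j x) i⟩

lemma of_sp {v : V → V} (h : ∀ i, SP (fun x => v x i))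
    (hd : ∀ x, ∑ j, pd j (fun y => v y j) x = 0) : SmoothDivFree v :=
  ⟨contDiff_pi.2 fun i => (h i).smooth, fun j x => funext fun i => (h i).per j x, hd⟩

lemma modes_all {w : V → V} (h : w ∈ DP univ) :
    w ∈ Submodule.span ℝ {w | ∃ k : Fin 3 → ℤ, w ∈ Mode k} := by
  refine Submodule.span_mono ?_ h
  rintro w ⟨k, -, a, ha, h⟩
  refine ⟨k, a, ha, ?_⟩
  rcases h with h | h
  · exact Or.inl (funext h)
  · exact Or.inr (funext h)

lemma adm_iff {ψ : ℕ → ℕ → V → V} (hψ : ∀ n i l, SP (fun x => ψ n i x l))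
    (h : ∀ n i, ∃ q : V → ℝ, SP q ∧ ∀ x l, cst n i x l = ψ n i x l + pd l q x) {p : ℕ} (hp : 1 ≤ p)
    (Φ : Set (V → V)) : Admissible phi ψ p Φ ↔ Adm p Φ := by
  have key : ∀ w : V → V, SmoothDivFree w → ∀ n i,
      ∑ l, ∫ x in cube, w x l * cst n i ((p : ℝ) • x) l = ip2 w (fun x => ψ n i ((p : ℝ) • x)) := by
    intro w hw n i
    obtain ⟨q, hq, hqe⟩ := h n i
    exact f_cstψ hp (hψ n i) hq hqe (sp_of hw) hw.divfree
  constructor
  · intro hΦ
    refine ⟨fun w hw => sp_of (hΦ.smooth w hw), fun w hw => (hΦ.smooth w hw).divfree, ?_,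
      fun w hw n i => ?_⟩
    · rw [f_sc, ← scaled_eq]; exact hΦ.scaled
    · rw [key w (hΦ.smooth w hw)]; exact hΦ.constraint w hw n i
  · intro hΦ
    have h1 : ∀ w ∈ Φ, SmoothDivFree w := fun w hw => of_sp (hΦ.sp w hw) (hΦ.div w hw)
    refine ⟨h1, ?_, fun w hw n i => ?_⟩
    · rw [scaled_eq, ← f_sc]; exact hΦ.sc
    · rw [← key w (h1 w hw)]; exact hΦ.orth w hw n i

lemma bkm_of {T : ℝ} {u : ℝ → V → V}
    (h : ∫⁻ t in Ioo 0 T, ⨆ x, ENNReal.ofReal |vo1 (u t) x| = ⊤) :
    ∫⁻ t in Ioo 0 T, ⨆ x, ‖curl (u t) x‖ₑ = ⊤ := by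
  rw [← top_le_iff, ← h]
  refine lintegral_mono fun t => iSup_mono fun x => ?_
  rw [← ofReal_norm]
  refine ENNReal.ofReal_le_ofReal ?_
  have h1 := norm_le_pi_norm (curl (u t) x) 1
  rw [Real.norm_eq_abs] at h1
  exact h1

/-- **Theorem.** There are `L²`-orthonormal, mean-free, divergence-free trigonometric polynomials
`φ 0, φ 1, …`, and divergence-free trigonometric polynomials `ψ n i`, `0 ≤ i ≤ n + 1`, orthogonal to
all `φ m`, such that `ψ n i` is zero or has a non-zero Fourier coefficient with a frequency of size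
`≥ 4 ^ (n ^ 3)`, with the following properties. Let `p ≥ 1`.

(0) Let `Fam φ p` consist of the fields `φ m (p x)` and of all divergence-free Fourier modes with
frequencies outside `(pℤ)³`. This is an admissible set of test fields. (So is the set of all smooth
divergence-free fields `w` with `∫ w(x) · ψ n i (p x) dx = 0` for all `n`, `i`.)

(1) The orthogonal projection `P` onto the closed linear span of `Fam φ p` is bounded in all Sobolev
spaces: for smooth divergence-free `f` there is a smooth divergence-free field `g = P f`, and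
`‖P f‖ ≤ C(s) ‖f‖` in `H^s`, for all `s ≥ 0`.

(2) Let `s < 5/2` and `T > 0`. In the linear span of the fields `φ m (p x)` there is a set of
initial velocities `u₀`, dense in the norm of `H^s`, such that there are `0 < Tm < T` and a field `u` on
the time interval `[0, Tm)` with `u(0) = u₀` which is, for every admissible set `Φ` of test fields, a
smooth solution of the Galerkin projection of the Euler equations onto the closed span of `Φ`, and every
smooth solution with this initial velocity is a restriction of `u`: there is no smooth solution beyond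
the time `Tm`. The norm of `u(t)` in `H^r` is unbounded on `[0, Tm)` for all `r > 0`, the norm of `u(t)`
in `L³` is unbounded on `[0, Tm)`, and `∫_0^{Tm} max |curl u(t)| dt = ∞`. -/
theorem result : ∃ (φ : ℕ → V → V) (ψ : ℕ → ℕ → V → V),
    (∀ m, φ m ∈ Submodule.span ℝ {w | ∃ k : Fin 3 → ℤ, k ≠ 0 ∧ w ∈ Mode k}) ∧
    (∀ m n, ip2 (φ m) (φ n) = if m = n then 1 else 0) ∧
    (∀ n i, ψ n i ∈ Submodule.span ℝ {w | ∃ k : Fin 3 → ℤ, w ∈ Mode k}) ∧
    (∀ n i m, ip2 (ψ n i) (φ m) = 0) ∧
    (∀ n i, n + 1 < i → ψ n i = 0) ∧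
    (∀ n i, ψ n i ≠ 0 → ∃ k : Fin 3 → ℤ, (4 : ℤ) ^ (n ^ 3) ≤ |k 2| ∧ coeffSq (ψ n i) k ≠ 0) ∧
    ∀ p : ℕ, 1 ≤ p →
      Admissible φ ψ p (Fam φ p) ∧
      (∃ C : ℝ → ℝ, ∀ f, SmoothDivFree f → ∃ g, SmoothDivFree g ∧ InClosedSpan (Fam φ p) g ∧
        (∀ w ∈ Fam φ p, ip2 (f - g) w = 0) ∧
        ∀ s : ℝ, 0 ≤ s → sobSq s g ≤ ENNReal.ofReal (C s) * sobSq s f) ∧
      ∀ s T ε : ℝ, s < 5 / 2 → 0 < T → 0 < ε →
      ∀ w ∈ Submodule.span ℝ (Scaled φ p), ∃ u₀ ∈ Submodule.span ℝ (Scaled φ p),
        sobSq s (u₀ - w) < ENNReal.ofReal ε ∧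
          ∃ (Tm : ℝ) (u : ℝ → V → V), 0 < Tm ∧ Tm < T ∧ u 0 = u₀ ∧
            (∀ r : ℝ, 0 < r → ∀ B : ℝ, ∃ t ∈ Ico 0 Tm, ENNReal.ofReal B < sobSq r (u t)) ∧
            (∀ B : ℝ, ∃ t ∈ Ico 0 Tm,
              B < ∫ x in Icc (0 : V) 1, (∑ i, u t x i ^ 2) ^ (3 / 2 : ℝ)) ∧
            ∫⁻ t in Ioo 0 Tm, ⨆ x, ‖curl (u t) x‖ₑ = ⊤ ∧
            ∀ Φ : Set (V → V), Admissible φ ψ p Φ → IsSol Φ Tm u ∧
              ∀ (T' : ℝ) (v : ℝ → V → V), IsSol Φ T' v → v 0 = u₀ →
                T' ≤ Tm ∧ ∀ t ∈ Ico 0 T', v t = u t := by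
  obtain ⟨ψ, p1, p2, p3, p4⟩ := f_psi f_spec
  have hψ : ∀ n i l, SP (fun x => ψ n i x l) := fun n i =>
    (s_nz.2.1 univ _ (s_nz.2.2 univ (p1 n i))).1
  refine ⟨phi, ψ, modes_mem, f_bas.on, fun n i => modes_all (p1 n i), fun n i m => ?_, p3, p4,
    fun p hp => ⟨?_, ?_, fun s T ε hs hT hε w hw => ?_⟩⟩
  · obtain ⟨q, hq, hqe⟩ := p2 n i
    have h1 := f_cstψ le_rfl (hψ n i) hq hqe (w := phi m) (f_bas.sp m) (f_bas.div m)
    simp only [Nat.cast_one, one_smul] at h1
    have h2 := f_ort.2 n i m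
    rw [f_ip_comm] at h2
    show ip (ψ n i) (phi m) = 0
    rw [f_ip_comm]
    exact h1.symm.trans h2
  · rw [adm_iff hψ p2 hp, fam_eq]
    exact f_admF p hp
  · obtain ⟨C, hC⟩ := f_proj p hp
    refine ⟨C, fun f hf => ?_⟩
    obtain ⟨g, h1, h2, h3, h4, h5⟩ := hC f (sp_of hf) hf.divfree
    refine ⟨g, of_sp h1 h2, ?_, fun w hw => ?_, h5⟩
    · rw [fam_eq, span_iff]; exact h3
    · rw [fam_eq] at hw
      exact h4 w hw
  rw [scaled_eq] at hw ⊢
  obtain ⟨u₀, h1, h2, h3⟩ := f_main3 f_adm f_ret f_scl f_scl2 f_bkm f_nos2 f_unb hp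
    (le_refl 0) hT (e := 5) (Or.inr ⟨rfl, rfl⟩) (s := s) (by push_cast; exact hs) hw hε
  refine ⟨u₀, h1, h2, ?_⟩
  obtain ⟨Tm, u, a1, a2, a3, a4, a6, a7, a5⟩ := h3 0 le_rfl le_rfl
  refine ⟨Tm, u, a1, a2, a3, a4, a6, bkm_of a7, fun Φ hΦ => ?_⟩
  obtain ⟨b1, b2⟩ := a5 Φ ((adm_iff hψ p2 hp Φ).1 hΦ)
  exact ⟨(sol_iff Φ Tm u).2 b1, fun T' v hv hv0 => b2 T' v ((sol_iff Φ T' v).1 hv) hv0⟩

end Pool.Agent.Results.MP_b0497c_an.ProjectedEulerBlowup
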